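import Mathlib
import Pool.Prelude.Def_F_6b510ad2

/-!
# Upper bounds for the function `H(n)` of Erdős: counting lemmas
-/

open Finset

namespace Pool.Agent.H2.AR

/-- the `x` in `[1,K]` with `p ∣ (c x)^n - 1`. -/
def cc (n c K p : ℕ) : Finset ℕ := (Finset.Icc 1 K).filter (fun x => p ∣ (c * x) ^ n - 1)

theorem cast_pow_eq_one {n c x p : ℕ} (hc : 0 < c) (hx : 0 < x) (h : p ∣ (c * x) ^ n - 1) :
    ((c : ZMod p) * (x : ZMod p)) ^ n = 1 := by
  have h1 : 1 ≤ (c * x) ^ n := Nat.one_le_pow _ _ (Nat.mul_pos hc hx)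
  have h2 : (((c * x) ^ n - 1 : ℕ) : ZMod p) = 0 := (ZMod.natCast_eq_zero_iff _ _).2 h
  rw [Nat.cast_sub h1] at h2
  push_cast at h2
  exact sub_eq_zero.1 h2

theorem card_roots {n p : ℕ} (hn : 0 < n) [Fact p.Prime] (c : ZMod p) :
    (Finset.univ.filter (fun r : ZMod p => (c * r) ^ n = 1)).card ≤ Nat.gcd n (p - 1) := by
  classical
  by_cases hc : c = 0
  · have : (Finset.univ.filter (fun r : ZMod p => (c * r) ^ n = 1)) = ∅ := by
      refine Finset.filter_eq_empty_iff.2 fun r _ => ?_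
      rw [hc, zero_mul, zero_pow hn.ne']
      exact zero_ne_one
    rw [this]; simp
  · have hg : 0 < Nat.gcd n (p - 1) := Nat.gcd_pos_of_pos_left _ hn
    have h1 : (Finset.univ.filter (fun r : ZMod p => (c * r) ^ n = 1)).card ≤
        (Polynomial.nthRootsFinset (Nat.gcd n (p - 1)) (1 : ZMod p)).card := by
      refine Finset.card_le_card_of_injOn (fun r => c * r) ?_ ?_
      · intro r hr
        have hr' : (c * r) ^ n = 1 := by simpa using hr
        have h0 : c * r ≠ 0 := by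
          intro h
          rw [h, zero_pow hn.ne'] at hr'
          exact zero_ne_one hr'
        have h2 := ZMod.pow_card_sub_one_eq_one h0
        have h3 : (c * r) ^ Nat.gcd n (p - 1) = 1 := pow_gcd_eq_one.2 ⟨hr', h2⟩
        simpa [Polynomial.mem_nthRootsFinset hg] using h3
      · intro r _ s _ h
        exact mul_left_cancel₀ hc h
    refine h1.trans ?_
    have h4 := Polynomial.card_nthRoots (Nat.gcd n (p - 1)) (1 : ZMod p)
    rw [Polynomial.nthRootsFinset_def]
    exact (Multiset.toFinset_card_le _).trans h4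

theorem card_cc_le {n c K p : ℕ} (hn : 0 < n) (hc : 0 < c) (hp : p.Prime) :
    (cc n c K p).card ≤ (K / p + 1) * Nat.gcd n (p - 1) := by
  classical
  have : Fact p.Prime := ⟨hp⟩
  have h1 : (cc n c K p).card ≤ (Finset.range (K / p + 1) ×ˢ
      (Finset.univ.filter (fun r : ZMod p => ((c : ZMod p) * r) ^ n = 1))).card := by
    refine Finset.card_le_card_of_injOn (fun x => (x / p, (x : ZMod p))) ?_ ?_
    · intro x hx
      have hx' := Finset.mem_filter.1 hx
      have hx1 := Finset.mem_Icc.1 hx'.1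
      refine Finset.mem_coe.2 (Finset.mem_product.2 ⟨?_, ?_⟩)
      · exact Finset.mem_range.2 (Nat.lt_succ_of_le (Nat.div_le_div_right hx1.2))
      · refine Finset.mem_filter.2 ⟨Finset.mem_univ _, ?_⟩
        exact cast_pow_eq_one hc (by omega) hx'.2
    · intro x _ y _ hxy
      have h2 : x / p = y / p := (Prod.mk.inj hxy).1
      have h3 : (x : ZMod p) = (y : ZMod p) := (Prod.mk.inj hxy).2
      have h4 : x % p = y % p := (ZMod.natCast_eq_natCast_iff' x y p).1 h3
      rw [← Nat.div_add_mod x p, ← Nat.div_add_mod y p, h2, h4]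
  refine h1.trans ?_
  rw [Finset.card_product, Finset.card_range]
  exact Nat.mul_le_mul_left _ (card_roots hn _)

theorem card_large {n K y : ℕ} (hn : 0 < n) (hy : 2 ≤ y) (hyK : y ≤ K) :
    ((y ^ n - 1).primeFactors.filter (fun p => K < p)).card ≤ n := by
  set S := (y ^ n - 1).primeFactors.filter (fun p => K < p) with hS
  have hpos : 0 < y ^ n - 1 := by
    have : 1 < y ^ n := Nat.one_lt_pow hn.ne' (by omega)
    omega
  have h1 : ∏ p ∈ S, p ∣ y ^ n - 1 :=
    (Finset.prod_dvd_prod_of_subset _ _ _ (Finset.filter_subset _ _)).trans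
      (Nat.prod_primeFactors_dvd _)
  have h2 : ∏ p ∈ S, p ≤ y ^ n - 1 := Nat.le_of_dvd hpos h1
  have h3 : K ^ S.card ≤ ∏ p ∈ S, p := by
    rw [← Finset.prod_const]
    refine Finset.prod_le_prod' fun p hp => ?_
    exact (Finset.mem_filter.1 hp).2.le
  have h4 : y ^ n ≤ K ^ n := Nat.pow_le_pow_left hyK n
  have h5 : K ^ S.card < K ^ n := by omega
  exact ((Nat.pow_lt_pow_iff_right (by omega)).1 h5).le

/-- the main counting lemma. -/
theorem exists_good {n P K S : ℕ} (hn : 0 < n) (hP : 2 ≤ P)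
    (hS : ∑ p ∈ (Finset.range (K + 1)).filter (fun p => p.Prime ∧ ¬ p ∣ P),
      ((K / p + 1) * Nat.gcd n (p - 1)) ^ 2 ≤ S)
    (hlt : S + n ^ 2 * K + 2 * K < K * K) :
    ∃ x y : ℕ, 1 ≤ x ∧ x ≤ K ∧ 2 ≤ y ∧ y ≤ K ∧ P * x ≠ y ∧
      Nat.Coprime ((P * x) ^ n - 1) (y ^ n - 1) := by
  classical
  by_contra hcon
  push Not at hcon
  have hK : 2 < K := by
    by_contra hK
    have : K * K ≤ 2 * K := Nat.mul_le_mul_right _ (by omega)
    omega
  set T := (Finset.range (K + 1)).filter (fun p => p.Prime ∧ ¬ p ∣ P) with hT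
  set D : Finset (ℕ × ℕ) := (Finset.Icc 1 K).image (fun x => (x, P * x)) with hD
  set U : Finset (ℕ × ℕ) := T.biUnion (fun p => cc n P K p ×ˢ cc n 1 K p) with hU
  set L : Finset (ℕ × ℕ) := (Finset.Icc 2 K).biUnion (fun y =>
    ((y ^ n - 1).primeFactors.filter (fun p => K < p)).biUnion
      (fun p => cc n P K p ×ˢ {y})) with hL
  have hsub : Finset.Icc 1 K ×ˢ Finset.Icc 2 K ⊆ D ∪ (U ∪ L) := by
    intro z hz
    obtain ⟨hz1, hz2⟩ := Finset.mem_product.1 hz
    have h1 := Finset.mem_Icc.1 hz1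
    have h2 := Finset.mem_Icc.1 hz2
    by_cases hPz : P * z.1 = z.2
    · refine Finset.mem_union_left _ (Finset.mem_image.2 ⟨z.1, hz1, ?_⟩)
      exact Prod.ext rfl hPz
    have h3 := hcon z.1 z.2 h1.1 h1.2 h2.1 h2.2 hPz
    obtain ⟨p, hp, hpa, hpb⟩ := Nat.Prime.not_coprime_iff_dvd.1 h3
    refine Finset.mem_union_right _ ?_
    have hm1 : z.1 ∈ cc n P K p := Finset.mem_filter.2 ⟨hz1, hpa⟩
    have hy1 : 1 < z.2 ^ n := Nat.one_lt_pow hn.ne' (by omega)
    by_cases hpK : p ≤ K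
    · refine Finset.mem_union_left _ (Finset.mem_biUnion.2 ⟨p, ?_, ?_⟩)
      · refine Finset.mem_filter.2 ⟨Finset.mem_range.2 (by omega), hp, ?_⟩
        intro hpP
        have h4 : p ∣ (P * z.1) ^ n := dvd_pow (dvd_mul_of_dvd_left hpP _) hn.ne'
        have h5 : 1 ≤ (P * z.1) ^ n := Nat.one_le_pow _ _ (Nat.mul_pos (by omega) (by omega))
        have h6 : p ∣ 1 := by
          have := Nat.dvd_sub h4 hpa
          rwa [Nat.sub_sub_self h5] at this
        exact hp.one_lt.ne' (Nat.dvd_one.1 h6)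
      · refine Finset.mem_product.2 ⟨hm1, Finset.mem_filter.2 ⟨Finset.mem_Icc.2 (by omega), ?_⟩⟩
        rw [one_mul]; exact hpb
    · refine Finset.mem_union_right _ (Finset.mem_biUnion.2 ⟨z.2, hz2,
        Finset.mem_biUnion.2 ⟨p, ?_, ?_⟩⟩)
      · refine Finset.mem_filter.2 ⟨?_, by omega⟩
        exact Nat.mem_primeFactors.2 ⟨hp, hpb, by omega⟩
      · exact Finset.mem_product.2 ⟨hm1, Finset.mem_singleton.2 rfl⟩
  have hcard := Finset.card_le_card hsub
  have h0 : (Finset.Icc 1 K ×ˢ Finset.Icc 2 K).card = K * (K - 1) := by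
    rw [Finset.card_product, Nat.card_Icc, Nat.card_Icc]
    congr 1
  have hDc : D.card ≤ K := by
    refine Finset.card_image_le.trans ?_
    rw [Nat.card_Icc]; omega
  have hUc : U.card ≤ S := by
    refine (Finset.card_biUnion_le).trans (le_trans (Finset.sum_le_sum fun p hp => ?_) hS)
    have hpp := (Finset.mem_filter.1 hp).2.1
    rw [Finset.card_product, pow_two]
    exact Nat.mul_le_mul (card_cc_le hn (by omega) hpp) (card_cc_le hn one_pos hpp)
  have hLc : L.card ≤ n ^ 2 * K := by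
    have h7 : ∀ y ∈ Finset.Icc 2 K, (((y ^ n - 1).primeFactors.filter (fun p => K < p)).biUnion
      (fun p => cc n P K p ×ˢ {y})).card ≤ n * n := by
      intro y hy
      have hy' := Finset.mem_Icc.1 hy
      refine (Finset.card_biUnion_le).trans ?_
      refine (Finset.sum_le_card_nsmul _ _ n fun p hp => ?_).trans ?_
      · have hp' := Finset.mem_filter.1 hp
        have hpp := Nat.prime_of_mem_primeFactors hp'.1
        rw [Finset.card_product, Finset.card_singleton, mul_one]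
        refine (card_cc_le hn (by omega) hpp).trans ?_
        rw [Nat.div_eq_of_lt hp'.2, zero_add, one_mul]
        exact Nat.gcd_le_left _ hn
      · rw [smul_eq_mul]
        exact Nat.mul_le_mul_right _ (card_large hn hy'.1 hy'.2)
    refine (Finset.card_biUnion_le).trans ((Finset.sum_le_card_nsmul _ _ _ h7).trans ?_)
    rw [smul_eq_mul, Nat.card_Icc]
    have : K + 1 - 2 ≤ K := by omega
    calc (K + 1 - 2) * (n * n) ≤ K * (n * n) := Nat.mul_le_mul_right _ this
      _ = n ^ 2 * K := by ring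
  have h8 := Finset.card_union_le D (U ∪ L)
  have h9 := Finset.card_union_le U L
  have h10 : K * (K - 1) + K = K * K := by
    obtain ⟨m, rfl⟩ : ∃ m, K = m + 1 := ⟨K - 1, by omega⟩
    simp only [Nat.add_sub_cancel]; ring
  omega

/-- a good pair bounds `H`. -/
theorem H_le_of_good {n P K x y : ℕ} (hP : 2 ≤ P) (hx : 1 ≤ x) (hxK : x ≤ K) (hy : 2 ≤ y)
    (hyK : y ≤ K) (hne : P * x ≠ y) (hc : Nat.Coprime ((P * x) ^ n - 1) (y ^ n - 1)) :
    N97cf5353.H n ≤ P * K := by
  have h1 : P * x ≤ P * K := Nat.mul_le_mul_left _ hxK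
  have h2 : y ≤ P * K := hyK.trans (Nat.le_mul_of_pos_left _ (by omega))
  have h3 : 2 ≤ P * x := hP.trans (Nat.le_mul_of_pos_right _ (by omega))
  unfold N97cf5353.H
  rcases lt_or_gt_of_ne hne with h | h
  · refine le_trans (Nat.sInf_le (m := y) ?_) h2
    exact ⟨P * x, h3, h, hc⟩
  · refine le_trans (Nat.sInf_le (m := P * x) ?_) h1
    exact ⟨y, hy, h, hc.symm⟩

theorem H_le {n P K S : ℕ} (hn : 0 < n) (hP : 2 ≤ P)
    (hS : ∑ p ∈ (Finset.range (K + 1)).filter (fun p => p.Prime ∧ ¬ p ∣ P),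
      ((K / p + 1) * Nat.gcd n (p - 1)) ^ 2 ≤ S)
    (hlt : S + n ^ 2 * K + 2 * K < K * K) : N97cf5353.H n ≤ P * K := by
  obtain ⟨x, y, hx, hxK, hy, hyK, hne, hc⟩ := exists_good hn hP hS hlt
  exact H_le_of_good hP hx hxK hy hyK hne hc

end Pool.Agent.H2.AR
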