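import Pool.Agent.H2.AR.Basic

/-!
# `H(n) ≤ 8 n² (17 n τ(n))^(16 τ(n)²)`
-/

open Finset

namespace Pool.Agent.H2.AR

/-- index of the group of `n`-th roots of unity mod `p`. -/
def idx (n p : ℕ) : ℕ := (p - 1) / Nat.gcd n (p - 1)

theorem idx_mul (n p : ℕ) : idx n p * Nat.gcd n (p - 1) = p - 1 :=
  Nat.div_mul_cancel (Nat.gcd_dvd_right _ _)

theorem idx_pos {n p : ℕ} (hp : p.Prime) : 0 < idx n p := by
  rcases Nat.eq_zero_or_pos (idx n p) with h | h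
  · have := idx_mul n p
    rw [h, zero_mul] at this
    have := hp.two_le
    omega
  · exact h

theorem term_le {n p K : ℕ} (hp : p.Prime) (hpK : p ≤ K) :
    ((((K / p + 1) * Nat.gcd n (p - 1)) ^ 2 : ℕ) : ℝ) ≤ 4 * (K : ℝ) ^ 2 * ((idx n p : ℝ) ^ 2)⁻¹ := by
  have hp0 : (0 : ℝ) < p := by exact_mod_cast hp.pos
  have hK1 : (1 : ℝ) ≤ K / p := by rw [le_div_iff₀ hp0, one_mul]; exact_mod_cast hpK
  have hi0 : (0 : ℝ) < idx n p := by exact_mod_cast idx_pos hp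
  have h1 : ((K / p + 1 : ℕ) : ℝ) ≤ 2 * (K / p) := by
    push_cast
    have : ((K / p : ℕ) : ℝ) ≤ K / p := Nat.cast_div_le
    linarith
  have h2 : (Nat.gcd n (p - 1) : ℝ) * idx n p ≤ p := by
    have h3 : Nat.gcd n (p - 1) * idx n p ≤ p := by
      rw [mul_comm, idx_mul]; omega
    exact_mod_cast h3
  have h4 : (((K / p + 1) * Nat.gcd n (p - 1) : ℕ) : ℝ) * idx n p ≤ 2 * K := by
    have h5 : (((K / p + 1) * Nat.gcd n (p - 1) : ℕ) : ℝ) * idx n p =
        ((K / p + 1 : ℕ) : ℝ) * ((Nat.gcd n (p - 1) : ℝ) * idx n p) := by push_cast; ring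
    rw [h5]
    calc ((K / p + 1 : ℕ) : ℝ) * ((Nat.gcd n (p - 1) : ℝ) * idx n p)
        ≤ 2 * (K / p) * p := by gcongr
      _ = 2 * K := by field_simp
  have h6 : (((K / p + 1) * Nat.gcd n (p - 1) : ℕ) : ℝ) ≤ 2 * K / idx n p := by
    rw [le_div_iff₀ hi0]; exact h4
  have h7 : (0 : ℝ) ≤ (((K / p + 1) * Nat.gcd n (p - 1) : ℕ) : ℝ) := Nat.cast_nonneg _
  calc ((((K / p + 1) * Nat.gcd n (p - 1)) ^ 2 : ℕ) : ℝ)
      = (((K / p + 1) * Nat.gcd n (p - 1) : ℕ) : ℝ) ^ 2 := by push_cast; ring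
    _ ≤ (2 * K / idx n p) ^ 2 := by gcongr
    _ = 4 * (K : ℝ) ^ 2 * ((idx n p : ℝ) ^ 2)⁻¹ := by field_simp; ring

theorem pair_inj {n p q : ℕ} (hp : p.Prime) (hq : q.Prime)
    (h : (Nat.gcd n (p - 1), idx n p) = (Nat.gcd n (q - 1), idx n q)) : p = q := by
  have h1 : Nat.gcd n (p - 1) = Nat.gcd n (q - 1) := (Prod.mk.inj h).1
  have h2 : idx n p = idx n q := (Prod.mk.inj h).2
  have h3 := idx_mul n p
  have h4 := idx_mul n q
  rw [h1, h2, h4] at h3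
  have := hp.two_le
  have := hq.two_le
  omega

theorem sum_le_of_idx {n K I : ℕ} (hn : 0 < n) (hI : 0 < I) (T : Finset ℕ)
    (hT : ∀ p ∈ T, p.Prime ∧ p ≤ K ∧ I < idx n p) :
    ((∑ p ∈ T, ((K / p + 1) * Nat.gcd n (p - 1)) ^ 2 : ℕ) : ℝ) ≤
      4 * (K : ℝ) ^ 2 * (n.divisors.card * (I : ℝ)⁻¹) := by
  classical
  have h1 : ((∑ p ∈ T, ((K / p + 1) * Nat.gcd n (p - 1)) ^ 2 : ℕ) : ℝ) ≤
      ∑ p ∈ T, 4 * (K : ℝ) ^ 2 * ((idx n p : ℝ) ^ 2)⁻¹ := by
    rw [Nat.cast_sum]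
    exact Finset.sum_le_sum fun p hp => term_le (hT p hp).1 (hT p hp).2.1
  refine h1.trans ?_
  rw [← Finset.mul_sum]
  refine mul_le_mul_of_nonneg_left ?_ (by positivity)
  have h2 : ∑ p ∈ T, ((idx n p : ℝ) ^ 2)⁻¹ =
      ∑ z ∈ T.image (fun p => (Nat.gcd n (p - 1), idx n p)), ((z.2 : ℝ) ^ 2)⁻¹ := by
    rw [Finset.sum_image]
    intro p hp q hq h
    exact pair_inj (hT p hp).1 (hT q hq).1 h
  rw [h2]
  have h3 : T.image (fun p => (Nat.gcd n (p - 1), idx n p)) ⊆ n.divisors ×ˢ Finset.Ioc I (max I K) := by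
    intro z hz
    obtain ⟨p, hp, rfl⟩ := Finset.mem_image.1 hz
    obtain ⟨hpp, hpK, hpI⟩ := hT p hp
    refine Finset.mem_product.2 ⟨Nat.mem_divisors.2 ⟨Nat.gcd_dvd_left _ _, hn.ne'⟩,
      Finset.mem_Ioc.2 ⟨hpI, ?_⟩⟩
    have : idx n p ≤ p - 1 := Nat.div_le_self _ _
    exact le_max_of_le_right (by omega)
  refine (Finset.sum_le_sum_of_subset_of_nonneg h3 fun z _ _ => by positivity).trans ?_
  rw [Finset.sum_product]
  simp only
  rw [Finset.sum_const, nsmul_eq_mul]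
  refine mul_le_mul_of_nonneg_left ?_ (Nat.cast_nonneg _)
  refine (sum_Ioc_inv_sq_le_sub (α := ℝ) hI.ne' (le_max_left I K)).trans ?_
  have : (0 : ℝ) ≤ ((max I K : ℕ) : ℝ)⁻¹ := by positivity
  linarith

/-- the general upper bound. -/
theorem H_le_divisor {n : ℕ} (hn : 0 < n) :
    N97cf5353.H n ≤ 8 * n ^ 2 * (17 * n * n.divisors.card) ^ (16 * n.divisors.card ^ 2) := by
  classical
  set t := n.divisors.card with ht
  have ht0 : 0 < t := Finset.card_pos.2 ⟨1, Nat.one_mem_divisors.2 hn.ne'⟩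
  set I := 16 * t with hI
  have hI0 : 0 < I := by omega
  set A := (Finset.range (n * I + 2)).filter (fun p => p.Prime ∧ idx n p ≤ I) with hA
  set P := ∏ p ∈ A, p with hP
  set K := 8 * n ^ 2 with hK
  have hPpos : 0 < P := Finset.prod_pos fun p hp => (Finset.mem_filter.1 hp).2.1.pos
  have h2A : 2 ∈ A := by
    refine Finset.mem_filter.2 ⟨Finset.mem_range.2 ?_, Nat.prime_two, ?_⟩
    · have : 0 < n * I := Nat.mul_pos hn hI0
      omega
    · have : idx n 2 = 1 := by simp [idx]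
      omega
  have hP2 : 2 ≤ P := Nat.le_of_dvd hPpos (Finset.dvd_prod_of_mem _ h2A)
  have hK8 : 8 ≤ K := by
    have : 1 ≤ n ^ 2 := Nat.one_le_pow _ _ hn
    omega
  have hT : ∀ p ∈ (Finset.range (K + 1)).filter (fun p => p.Prime ∧ ¬ p ∣ P),
      p.Prime ∧ p ≤ K ∧ I < idx n p := by
    intro p hp
    obtain ⟨hp1, hp2, hp3⟩ := Finset.mem_filter.1 hp
    refine ⟨hp2, by have := Finset.mem_range.1 hp1; omega, ?_⟩
    by_contra hle
    apply hp3
    refine Finset.dvd_prod_of_mem (fun p => p) (Finset.mem_filter.2 ⟨Finset.mem_range.2 ?_, hp2, by omega⟩)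
    have h5 := idx_mul n p
    have h6 : Nat.gcd n (p - 1) ≤ n := Nat.gcd_le_left _ hn
    have h7 : idx n p * Nat.gcd n (p - 1) ≤ I * n := Nat.mul_le_mul (by omega) h6
    have h8 : I * n = n * I := mul_comm _ _
    have := hp2.two_le
    omega
  have hsum := sum_le_of_idx (K := K) hn hI0 _ hT
  have hmain : N97cf5353.H n ≤ P * K := by
    refine H_le (S := ∑ p ∈ (Finset.range (K + 1)).filter (fun p => p.Prime ∧ ¬ p ∣ P),
      ((K / p + 1) * Nat.gcd n (p - 1)) ^ 2) hn hP2 le_rfl ?_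
    have hKr : (8 : ℝ) ≤ K := by exact_mod_cast hK8
    have e1 : (n.divisors.card : ℝ) * (I : ℝ)⁻¹ = 1 / 16 := by
      rw [hI, ← ht]; push_cast
      have : (0 : ℝ) < t := by exact_mod_cast ht0
      field_simp
    rw [e1] at hsum
    have e2 : ((n ^ 2 * K : ℕ) : ℝ) = (K : ℝ) ^ 2 / 8 := by
      rw [hK]; push_cast; ring
    have e3 : ((∑ p ∈ (Finset.range (K + 1)).filter (fun p => p.Prime ∧ ¬ p ∣ P),
      ((K / p + 1) * Nat.gcd n (p - 1)) ^ 2 + n ^ 2 * K + 2 * K : ℕ) : ℝ) < ((K * K : ℕ) : ℝ) := by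
      rw [Nat.cast_add, Nat.cast_add, e2]
      push_cast at hsum ⊢
      nlinarith
    exact_mod_cast e3
  refine hmain.trans ?_
  have hcard : A.card ≤ 16 * t ^ 2 := by
    have h1 : A.card ≤ (n.divisors ×ˢ Finset.Icc 1 I).card := by
      refine Finset.card_le_card_of_injOn (fun p => (Nat.gcd n (p - 1), idx n p)) ?_ ?_
      · intro p hp
        obtain ⟨_, hp2, hp3⟩ := Finset.mem_filter.1 hp
        exact Finset.mem_coe.2 (Finset.mem_product.2 ⟨Nat.mem_divisors.2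
          ⟨Nat.gcd_dvd_left _ _, hn.ne'⟩, Finset.mem_Icc.2 ⟨idx_pos hp2, hp3⟩⟩)
      · intro p hp q hq h
        exact pair_inj (Finset.mem_filter.1 hp).2.1 (Finset.mem_filter.1 hq).2.1 h
    refine h1.trans ?_
    rw [Finset.card_product, Nat.card_Icc, Nat.add_sub_cancel, ← ht, hI]
    exact le_of_eq (by ring)
  have hbase : ∀ p ∈ A, p ≤ 17 * n * t := by
    intro p hp
    have h1 := Finset.mem_range.1 (Finset.mem_filter.1 hp).1
    have h2 : 0 < n * t := Nat.mul_pos hn ht0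
    have h3 : n * I = 16 * (n * t) := by rw [hI]; ring
    have h4 : 17 * n * t = 17 * (n * t) := by ring
    omega
  have hPle : P ≤ (17 * n * t) ^ (16 * t ^ 2) := by
    refine (Finset.prod_le_pow_card _ _ _ hbase).trans ?_
    refine Nat.pow_le_pow_right ?_ hcard
    have h2 : 0 < n * t := Nat.mul_pos hn ht0
    have h4 : 17 * n * t = 17 * (n * t) := by ring
    omega
  calc P * K ≤ (17 * n * t) ^ (16 * t ^ 2) * K := Nat.mul_le_mul_right _ hPle
    _ = 8 * n ^ 2 * (17 * n * t) ^ (16 * t ^ 2) := by rw [hK]; ring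

end Pool.Agent.H2.AR
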