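import Pool.Agent.H2.AR.Basic

/-!
# `H(q) ≤ 120 q²` for every prime `q`
-/

open Finset

namespace Pool.Agent.H2.AR

theorem sq_add_le (a b : ℝ) : (a + b) ^ 2 ≤ 5 / 4 * a ^ 2 + 5 * b ^ 2 := by
  nlinarith [sq_nonneg (a / 2 - 2 * b)]

theorem sum_Icc_inv_sq (J : ℕ) : ∑ j ∈ Finset.Icc 1 J, ((j : ℝ) ^ 2)⁻¹ ≤ 7 / 4 := by
  have hsub : Finset.Icc 1 J ⊆ {1, 2} ∪ Finset.Ioc 2 (max 2 J) := by
    intro j hj
    have := Finset.mem_Icc.1 hj
    simp only [Finset.mem_union, Finset.mem_insert, Finset.mem_singleton, Finset.mem_Ioc,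
      le_max_iff]
    omega
  refine (Finset.sum_le_sum_of_subset_of_nonneg hsub fun _ _ _ => by positivity).trans ?_
  have hdis : Disjoint ({1, 2} : Finset ℕ) (Finset.Ioc 2 (max 2 J)) := by
    refine Finset.disjoint_left.2 fun a ha hb => ?_
    have := (Finset.mem_Ioc.1 hb).1
    simp only [Finset.mem_insert, Finset.mem_singleton] at ha
    omega
  rw [Finset.sum_union hdis]
  have h1 := sum_Ioc_inv_sq_le_sub (α := ℝ) (k := 2) (n := max 2 J) (by norm_num) (le_max_left _ _)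
  have h2 : (0 : ℝ) ≤ ((max 2 J : ℕ) : ℝ)⁻¹ := by positivity
  rw [Finset.sum_pair (by norm_num)]
  have h3 : (((1 : ℕ) : ℝ) ^ 2)⁻¹ + (((2 : ℕ) : ℝ) ^ 2)⁻¹ = 5 / 4 := by norm_num
  have h4 : ((2 : ℕ) : ℝ)⁻¹ = 1 / 2 := by norm_num
  rw [h3]
  rw [h4] at h1
  linarith

theorem H_le_prime_odd {q : ℕ} (hq : q.Prime) (hq2 : q ≠ 2) :
    N97cf5353.H q ≤ 120 * q ^ 2 := by
  classical
  have hq3 : 3 ≤ q := by have := hq.two_le; omega
  have hqodd : q % 2 = 1 := hq.eq_two_or_odd.resolve_left hq2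
  set K := 20 * q ^ 2 with hK
  set T := (Finset.range (K + 1)).filter (fun p => p.Prime ∧ ¬ p ∣ 6) with hT
  have hTp : ∀ p ∈ T, p.Prime ∧ 5 ≤ p ∧ p ≤ K := by
    intro p hp
    obtain ⟨h1, h2, h3⟩ := Finset.mem_filter.1 hp
    refine ⟨h2, ?_, by have := Finset.mem_range.1 h1; omega⟩
    by_contra hlt
    have h4 := h2.two_le
    have h5 : p = 2 ∨ p = 3 ∨ p = 4 := by omega
    rcases h5 with rfl | rfl | rfl
    · exact h3 (by norm_num)
    · exact h3 (by norm_num)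
    · exact absurd h2 (by norm_num)
  set T1 := T.filter (fun p => Nat.gcd q (p - 1) = 1) with hT1
  set T2 := T.filter (fun p => ¬ Nat.gcd q (p - 1) = 1) with hT2
  have hKr : (0 : ℝ) ≤ K := Nat.cast_nonneg _
  -- first part
  have hS1 : ((∑ p ∈ T1, ((K / p + 1) * Nat.gcd q (p - 1)) ^ 2 : ℕ) : ℝ) ≤
      5 / 16 * (K : ℝ) ^ 2 + 5 * K := by
    have h1 : ∀ p ∈ T1, ((((K / p + 1) * Nat.gcd q (p - 1)) ^ 2 : ℕ) : ℝ) ≤
        5 / 4 * (K : ℝ) ^ 2 * ((p : ℝ) ^ 2)⁻¹ + 5 := by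
      intro p hp
      obtain ⟨hp1, hp2⟩ := Finset.mem_filter.1 hp
      rw [hp2, mul_one]
      have h2 : ((K / p : ℕ) : ℝ) ≤ K / p := Nat.cast_div_le
      push_cast
      calc (((K / p : ℕ) : ℝ) + 1) ^ 2 ≤ ((K : ℝ) / p + 1) ^ 2 := by gcongr
        _ ≤ 5 / 4 * ((K : ℝ) / p) ^ 2 + 5 * 1 ^ 2 := sq_add_le _ _
        _ = 5 / 4 * (K : ℝ) ^ 2 * ((p : ℝ) ^ 2)⁻¹ + 5 := by rw [div_pow]; ring
    rw [Nat.cast_sum]
    refine (Finset.sum_le_sum h1).trans ?_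
    rw [Finset.sum_add_distrib, ← Finset.mul_sum, Finset.sum_const, nsmul_eq_mul]
    have hsub : T1 ⊆ Finset.Ioc 4 (max 4 K) := by
      intro p hp
      obtain ⟨_, h5, h6⟩ := hTp p (Finset.mem_filter.1 hp).1
      exact Finset.mem_Ioc.2 ⟨by omega, le_max_of_le_right h6⟩
    have h3 : ∑ p ∈ T1, ((p : ℝ) ^ 2)⁻¹ ≤ 1 / 4 := by
      refine (Finset.sum_le_sum_of_subset_of_nonneg hsub fun _ _ _ => by positivity).trans ?_
      refine (sum_Ioc_inv_sq_le_sub (α := ℝ) (k := 4) (n := max 4 K) (by norm_num)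
        (le_max_left _ _)).trans ?_
      have h2 : (0 : ℝ) ≤ ((max 4 K : ℕ) : ℝ)⁻¹ := by positivity
      push_cast at h2 ⊢
      linarith
    have h4 : (T1.card : ℝ) ≤ K := by
      have h5 : T1.card ≤ (Finset.Icc 1 K).card := by
        refine Finset.card_le_card fun p hp => ?_
        obtain ⟨_, h5, h6⟩ := hTp p (Finset.mem_filter.1 hp).1
        exact Finset.mem_Icc.2 ⟨by omega, h6⟩
      rw [Nat.card_Icc, Nat.add_sub_cancel] at h5
      exact_mod_cast h5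
    have h6 : 5 / 4 * (K : ℝ) ^ 2 * ∑ p ∈ T1, ((p : ℝ) ^ 2)⁻¹ ≤ 5 / 4 * (K : ℝ) ^ 2 * (1 / 4) :=
      mul_le_mul_of_nonneg_left h3 (by positivity)
    linarith
  -- second part
  have hT2p : ∀ p ∈ T2, Nat.gcd q (p - 1) = q ∧ 2 * q * ((p - 1) / (2 * q)) = p - 1 := by
    intro p hp
    obtain ⟨hp1, hp2⟩ := Finset.mem_filter.1 hp
    obtain ⟨hpp, hp5, _⟩ := hTp p hp1
    have h1 : Nat.gcd q (p - 1) = q :=
      (hq.eq_one_or_self_of_dvd _ (Nat.gcd_dvd_left _ _)).resolve_left hp2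
    refine ⟨h1, ?_⟩
    have h2 : q ∣ p - 1 := h1 ▸ Nat.gcd_dvd_right _ _
    have h3 : 2 ∣ p - 1 := by
      have := hpp.eq_two_or_odd.resolve_left (by omega)
      omega
    have h4 : Nat.Coprime 2 q := by
      rw [Nat.coprime_two_left]; exact Nat.odd_iff.2 hqodd
    exact Nat.mul_div_cancel' (h4.mul_dvd_of_dvd_of_dvd h3 h2)
  have hT2j : ∀ p ∈ T2, 1 ≤ (p - 1) / (2 * q) ∧ (p - 1) / (2 * q) ≤ 10 * q := by
    intro p hp
    obtain ⟨_, h2⟩ := hT2p p hp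
    obtain ⟨hpp, hp5, hpK⟩ := hTp p (Finset.mem_filter.1 hp).1
    constructor
    · rcases Nat.eq_zero_or_pos ((p - 1) / (2 * q)) with h | h
      · rw [h, mul_zero] at h2; omega
      · exact h
    · refine Nat.div_le_of_le_mul ?_
      calc p - 1 ≤ K := by omega
        _ = 2 * q * (10 * q) := by rw [hK]; ring
  have hS2 : ((∑ p ∈ T2, ((K / p + 1) * Nat.gcd q (p - 1)) ^ 2 : ℕ) : ℝ) ≤
      35 / 64 * (K : ℝ) ^ 2 + 50 * (q : ℝ) ^ 3 := by
    have h1 : ∀ p ∈ T2, ((((K / p + 1) * Nat.gcd q (p - 1)) ^ 2 : ℕ) : ℝ) ≤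
        5 / 16 * (K : ℝ) ^ 2 * ((((p - 1) / (2 * q) : ℕ) : ℝ) ^ 2)⁻¹ + 5 * (q : ℝ) ^ 2 := by
      intro p hp
      obtain ⟨hg, hm⟩ := hT2p p hp
      obtain ⟨hj1, hj2⟩ := hT2j p hp
      set j := (p - 1) / (2 * q) with hj
      obtain ⟨hpp, hp5, hpK⟩ := hTp p (Finset.mem_filter.1 hp).1
      rw [hg]
      have hj0 : (0 : ℝ) < j := by exact_mod_cast hj1
      have hp0 : (0 : ℝ) < p := by exact_mod_cast hpp.pos
      have h2 : ((K / p : ℕ) : ℝ) ≤ K / p := Nat.cast_div_le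
      have h3 : 2 * (q : ℝ) * j ≤ p := by
        have : 2 * q * j ≤ p := by omega
        exact_mod_cast this
      have h4 : ((K / p : ℕ) : ℝ) * q ≤ K / (2 * j) := by
        calc ((K / p : ℕ) : ℝ) * q ≤ K / p * q := by gcongr
          _ ≤ K / (2 * j) := by
            rw [le_div_iff₀ (by positivity), div_mul_eq_mul_div, div_mul_eq_mul_div,
              div_le_iff₀ hp0]
            calc (K : ℝ) * q * (2 * j) = K * (2 * q * j) := by ring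
              _ ≤ K * p := by gcongr
      push_cast
      calc ((((K / p : ℕ) : ℝ) + 1) * q) ^ 2 = (((K / p : ℕ) : ℝ) * q + q) ^ 2 := by ring
        _ ≤ (K / (2 * j) + (q : ℝ)) ^ 2 := by gcongr
        _ ≤ 5 / 4 * (K / (2 * j)) ^ 2 + 5 * (q : ℝ) ^ 2 := sq_add_le _ _
        _ = 5 / 16 * (K : ℝ) ^ 2 * ((j : ℝ) ^ 2)⁻¹ + 5 * (q : ℝ) ^ 2 := by field_simp; ring
    rw [Nat.cast_sum]
    refine (Finset.sum_le_sum h1).trans ?_
    rw [Finset.sum_add_distrib, ← Finset.mul_sum, Finset.sum_const, nsmul_eq_mul]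
    have hinj : Set.InjOn (fun p => (p - 1) / (2 * q)) (T2 : Set ℕ) := by
      intro a ha b hb hab
      have h2 := (hT2p a ha).2
      have h3 := (hT2p b hb).2
      have hab' : (a - 1) / (2 * q) = (b - 1) / (2 * q) := hab
      rw [hab', h3] at h2
      have h4 := (hTp a (Finset.mem_filter.1 ha).1).2.1
      have h5 := (hTp b (Finset.mem_filter.1 hb).1).2.1
      omega
    have himg : T2.image (fun p => (p - 1) / (2 * q)) ⊆ Finset.Icc 1 (10 * q) := by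
      intro j hj
      obtain ⟨p, hp, rfl⟩ := Finset.mem_image.1 hj
      exact Finset.mem_Icc.2 (hT2j p hp)
    have h3 : ∑ p ∈ T2, ((((p - 1) / (2 * q) : ℕ) : ℝ) ^ 2)⁻¹ ≤ 7 / 4 := by
      have h4 : ∑ p ∈ T2, ((((p - 1) / (2 * q) : ℕ) : ℝ) ^ 2)⁻¹ =
          ∑ j ∈ T2.image (fun p => (p - 1) / (2 * q)), ((j : ℝ) ^ 2)⁻¹ := by
        rw [Finset.sum_image hinj]
      rw [h4]
      exact (Finset.sum_le_sum_of_subset_of_nonneg himg fun _ _ _ => by positivity).trans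
        (sum_Icc_inv_sq _)
    have h4 : (T2.card : ℝ) ≤ 10 * q := by
      have h5 : T2.card ≤ (Finset.Icc 1 (10 * q)).card := by
        rw [← Finset.card_image_of_injOn hinj]
        exact Finset.card_le_card himg
      rw [Nat.card_Icc, Nat.add_sub_cancel] at h5
      exact_mod_cast h5
    have h6 : 5 / 16 * (K : ℝ) ^ 2 * ∑ p ∈ T2, ((((p - 1) / (2 * q) : ℕ) : ℝ) ^ 2)⁻¹ ≤
        5 / 16 * (K : ℝ) ^ 2 * (7 / 4) :=
      mul_le_mul_of_nonneg_left h3 (by positivity)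
    have h7 : (T2.card : ℝ) * (5 * (q : ℝ) ^ 2) ≤ 10 * q * (5 * (q : ℝ) ^ 2) :=
      mul_le_mul_of_nonneg_right h4 (by positivity)
    nlinarith
  have hsplit : ∑ p ∈ T, ((K / p + 1) * Nat.gcd q (p - 1)) ^ 2 =
      ∑ p ∈ T1, ((K / p + 1) * Nat.gcd q (p - 1)) ^ 2 +
      ∑ p ∈ T2, ((K / p + 1) * Nat.gcd q (p - 1)) ^ 2 :=
    (Finset.sum_filter_add_sum_filter_not T _ _).symm
  have hfin : N97cf5353.H q ≤ 6 * K := by
    refine H_le (P := 6) (K := K) (S := ∑ p ∈ T, ((K / p + 1) * Nat.gcd q (p - 1)) ^ 2)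
      hq.pos (by norm_num) le_rfl ?_
    have hqr : (3 : ℝ) ≤ q := by exact_mod_cast hq3
    have hKe : (K : ℝ) = 20 * (q : ℝ) ^ 2 := by rw [hK]; push_cast; ring
    have e3 : ((∑ p ∈ T, ((K / p + 1) * Nat.gcd q (p - 1)) ^ 2 + q ^ 2 * K + 2 * K : ℕ) : ℝ) <
        ((K * K : ℕ) : ℝ) := by
      rw [hsplit, Nat.cast_add, Nat.cast_add, Nat.cast_add]
      have e4 : ((q ^ 2 * K : ℕ) : ℝ) = 20 * (q : ℝ) ^ 4 := by push_cast; rw [hKe]; ring
      have e5 : ((2 * K : ℕ) : ℝ) = 40 * (q : ℝ) ^ 2 := by push_cast; rw [hKe]; ring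
      have e6 : ((K * K : ℕ) : ℝ) = 400 * (q : ℝ) ^ 4 := by push_cast; rw [hKe]; ring
      have e7 : (K : ℝ) ^ 2 = 400 * (q : ℝ) ^ 4 := by rw [hKe]; ring
      rw [e4, e5, e6]
      rw [e7, hKe] at hS1
      rw [e7] at hS2
      have e8 : 50 * (q : ℝ) ^ 3 + 140 * (q : ℝ) ^ 2 < 36 * (q : ℝ) ^ 4 := by
        have h1 : (3 : ℝ) * (q : ℝ) ^ 3 ≤ (q : ℝ) ^ 4 := by
          have : (0 : ℝ) ≤ (q : ℝ) ^ 3 := by positivity
          nlinarith
        have h2 : (9 : ℝ) * (q : ℝ) ^ 2 ≤ (q : ℝ) ^ 4 := by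
          have h3 : (0 : ℝ) ≤ (q : ℝ) ^ 2 := by positivity
          have h4 : (9 : ℝ) ≤ (q : ℝ) ^ 2 := by nlinarith
          nlinarith
        have h5 : (0 : ℝ) < (q : ℝ) ^ 4 := by positivity
        nlinarith
      nlinarith
    exact_mod_cast e3
  calc N97cf5353.H q ≤ 6 * K := hfin
    _ = 120 * q ^ 2 := by rw [hK]; ring

theorem H_le_prime {q : ℕ} (hq : q.Prime) : N97cf5353.H q ≤ 120 * q ^ 2 := by
  by_cases h2 : q = 2
  · subst h2
    refine le_trans (Nat.sInf_le (m := 3) ?_) (by norm_num)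
    exact ⟨2, le_rfl, by norm_num, by norm_num⟩
  · exact H_le_prime_odd hq h2

end Pool.Agent.H2.AR
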